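import Pool.Agent.H52.JE.CU2

/-!
# JE board, module CU2, explicit form: the choice of `τ` and `K` in the lower bound (helper52)

The same proof as in the module CU2, with `K = ⌈48 / ε²⌉` and the explicit condition
`10 ^ 8 ≤ ε ^ 4 * κ ^ 2` on the margin.
-/

set_option autoImplicit false

namespace Pool.Agent.H52.JE

open Finset Filter Topology Pool.Agent.H80.JD Pool.Agent.H80.JE ProbabilityTheory MeasureTheory

/-- Row CU2, explicit form. -/
theorem cu2e (hGL : T_GL) : ∀ ε : ℝ, 0 < ε → ε < 1 → ∃ K : ℕ, 4 ≤ K ∧ ∀ κ α : ℝ, 0 < κ →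
    10 ^ 8 ≤ ε ^ 4 * κ ^ 2 → 0 < α →
    curve (α * κ ^ 2) ≤ ε ∨ ∃ τ : ℝ, 0 < τ ∧
      κ * Real.sqrt α + 96000 * K * α ≤ (1 - 3 / K) * ph τ ∧
      curve (α * κ ^ 2) - ε < (1 - 2 / K) * Φ τ := by
  intro ε hε hε1
  have hε2 : 0 < ε ^ 2 := by positivity
  have hε3 : ε ^ 2 ≤ 1 := by nlinarith
  set K : ℕ := ⌈48 / ε ^ 2⌉₊ with hKdef
  have hK48 : 48 / ε ^ 2 ≤ K := Nat.le_ceil _
  have hKε : 48 ≤ K * ε ^ 2 := by
    rwa [div_le_iff₀ hε2] at hK48
  have hK4' : (4 : ℝ) ≤ K := by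
    have h1 : (K : ℝ) * ε ^ 2 ≤ K * 1 := mul_le_mul_of_nonneg_left hε3 (Nat.cast_nonneg _)
    linarith
  have hK4 : 4 ≤ K := by exact_mod_cast hK4'
  have hKup : K * ε ^ 2 ≤ 49 := by
    have h1 : (K : ℝ) < 48 / ε ^ 2 + 1 := Nat.ceil_lt_add_one (by positivity)
    have h2 := mul_lt_mul_of_pos_right h1 hε2
    have h3 : (48 / ε ^ 2 + 1) * ε ^ 2 = 48 + ε ^ 2 := by field_simp
    linarith
  refine ⟨K, hK4, ?_⟩
  intro κ α hκ0 hκ hα
  have hκ2 : 768000 * K ≤ ε ^ 2 * κ ^ 2 := by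
    have h1 : 768000 * K * ε ^ 2 ≤ ε ^ 2 * κ ^ 2 * ε ^ 2 := by
      have e : ε ^ 2 * κ ^ 2 * ε ^ 2 = ε ^ 4 * κ ^ 2 := by ring
      rw [e]
      linarith
    exact le_of_mul_le_mul_right h1 hε2
  by_cases hcur : curve (α * κ ^ 2) ≤ ε
  · exact Or.inl hcur
  right
  push Not at hcur
  set c : ℝ := α * κ ^ 2 with hc
  have hc0 : 0 < c := by positivity
  have hpi := Real.pi_gt_three
  set t : ℝ := Real.sqrt (Real.log (2 / (Real.pi * c))) with ht
  have hcurve : curve c = Φ t := rfl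
  have hlog : 0 < Real.log (2 / (Real.pi * c)) := by
    by_contra h
    have h1 : t = 0 := Real.sqrt_eq_zero_of_nonpos (not_lt.1 h)
    rw [hcurve, h1, Phi_zero] at hcur
    linarith
  have ht2 : t ^ 2 = Real.log (2 / (Real.pi * c)) := Real.sq_sqrt hlog.le
  have hph : ph t = Real.sqrt c := ph_eq hc0 ht2
  have ht0 : 0 ≤ t := Real.sqrt_nonneg _
  have htε : ε < t := by
    have h1 := hGL.1 0 t le_rfl ht0
    rw [Phi_zero] at h1
    rw [hcurve] at hcur
    linarith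
  have hsc : Real.sqrt c = κ * Real.sqrt α := by
    rw [hc, Real.sqrt_mul hα.le, Real.sqrt_sq hκ0.le]; ring
  have hsα : 0 < Real.sqrt α := Real.sqrt_pos.2 hα
  have hc1 : c ≤ 1 := by
    by_contra h
    have h2 : 2 / (Real.pi * c) ≤ 1 := by
      rw [div_le_one (by positivity)]
      nlinarith
    have h3 : Real.log (2 / (Real.pi * c)) ≤ 0 :=
      Real.log_nonpos (by positivity) h2
    linarith
  have hsc1 : κ * Real.sqrt α ≤ 1 := by
    rw [← hsc]
    exact Real.sqrt_le_one.2 hc1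
  refine ⟨t - ε / 4, by linarith, ?_, ?_⟩
  · -- the first inequality
    have h1 : Real.sqrt c * (1 + 7 * ε ^ 2 / 32) ≤ ph (t - ε / 4) := by
      have e : ph (t - ε / 4) = ph t * Real.exp (t * ε / 4 - ε ^ 2 / 32) := by
        unfold ph
        rw [mul_assoc, ← Real.exp_add]
        congr 2
        ring
      rw [e, hph]
      apply mul_le_mul_of_nonneg_left _ (Real.sqrt_nonneg _)
      have h2 := Real.add_one_le_exp (t * ε / 4 - ε ^ 2 / 32)
      have h3 : ε * ε ≤ t * ε := mul_le_mul_of_nonneg_right htε.le hε.le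
      nlinarith
    have h4 : 1 - ε ^ 2 / 16 ≤ 1 - 3 / (K : ℝ) := by
      have h5 : 3 / (K : ℝ) ≤ ε ^ 2 / 16 := by
        rw [div_le_div_iff₀ (by linarith) (by norm_num)]
        linarith
      linarith
    have hε2' : ε ^ 2 ≤ 1 := hε3
    have h6 : Real.sqrt c * (1 + ε ^ 2 / 8) ≤ (1 - 3 / K) * ph (t - ε / 4) := by
      calc Real.sqrt c * (1 + ε ^ 2 / 8)
          ≤ Real.sqrt c * ((1 - ε ^ 2 / 16) * (1 + 7 * ε ^ 2 / 32)) := by
            apply mul_le_mul_of_nonneg_left _ (Real.sqrt_nonneg _)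
            have h7 : 0 ≤ ε ^ 2 := sq_nonneg _
            nlinarith
        _ = (1 - ε ^ 2 / 16) * (Real.sqrt c * (1 + 7 * ε ^ 2 / 32)) := by ring
        _ ≤ (1 - 3 / K) * ph (t - ε / 4) := by
            apply mul_le_mul h4 h1 (by positivity)
            linarith
    refine le_trans ?_ h6
    rw [hsc]
    have h8 : 96000 * K * α ≤ κ * Real.sqrt α * (ε ^ 2 / 8) := by
      have h9 : α = Real.sqrt α * Real.sqrt α := (Real.mul_self_sqrt hα.le).symm
      have h10 : 768000 * K * α * κ ≤ ε ^ 2 * κ ^ 2 * Real.sqrt α := by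
        calc 768000 * K * α * κ = 768000 * K * Real.sqrt α * (κ * Real.sqrt α) := by
              nth_rewrite 1 [h9]; ring
          _ ≤ 768000 * K * Real.sqrt α * 1 :=
              mul_le_mul_of_nonneg_left hsc1 (by positivity)
          _ = 768000 * K * Real.sqrt α := by ring
          _ ≤ ε ^ 2 * κ ^ 2 * Real.sqrt α := mul_le_mul_of_nonneg_right hκ2 hsα.le
      have h11 : 96000 * K * α * κ ≤ κ * Real.sqrt α * (ε ^ 2 / 8) * κ := by linarith
      exact le_of_mul_le_mul_right h11 hκ0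
    linarith
  · -- the second inequality
    rw [hcurve]
    have h1 := hGL.1 (t - ε / 4) t (by linarith) (by linarith)
    have h2 := Phi_le_one (t - ε / 4)
    have h3 : 2 / (K : ℝ) ≤ ε / 4 := by
      rw [div_le_div_iff₀ (by linarith) (by norm_num)]
      nlinarith
    have h4 : 2 / (K : ℝ) * Φ (t - ε / 4) ≤ 2 / K * 1 :=
      mul_le_mul_of_nonneg_left h2 (by positivity)
    have e : (1 - 2 / (K : ℝ)) * Φ (t - ε / 4) = Φ (t - ε / 4) - 2 / K * Φ (t - ε / 4) := by ring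
    rw [e]
    linarith

end Pool.Agent.H52.JE
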