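import Pool.Agent.H52.JE.ONE2B

/-!
# JE board, module ONE2, third part: the exponential moment of one step (helper52, MP_38f78d_pr)
-/

set_option autoImplicit false

namespace Pool.Agent.H52.JE

open Finset Filter Topology Pool.Agent.H80.JD Pool.Agent.H80.JE

/-- the sum over all columns and types of the exponentials of the first order terms -/
lemma sum_gain (hEXR : T_EXR) (hEXM : T_EXM) {m k : ℕ} (B τ : ℝ) (s : St m) (η : ℝ) (hη : 0 ≤ η)
    (h1 : η * RS B s ≤ 1 / 2) (h2 : η * RT B s ≤ 1 / 2) :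
    ∑ c : (Fin m → Bool) × Fin (k + 2), Real.exp (-(η * gain B τ s c.1 c.2)) ≤
      2 ^ m * (1 - 7 / 32 * (η * RS B s)) + 2 ^ m * (1 - 7 / 32 * (η * RT B s)) +
      k * (2 ^ m - η * (∑ v ∈ bigs τ m, ((sg (cs v) : ℤ) : ℝ) * lin (fun j => ww B (s.1 j)) v) +
        2 * (η * RS B s) ^ 2 * 2 ^ m) := by
  classical
  have n1 : 0 ≤ RS B s := Real.sqrt_nonneg _
  have n2 : 0 ≤ RT B s := Real.sqrt_nonneg _
  have e1 : (RS B s) ^ 2 = ∑ j, (ww B (s.1 j)) ^ 2 :=
    Real.sq_sqrt (Finset.sum_nonneg fun j _ => sq_nonneg _)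
  have e2 : (RT B s) ^ 2 = ∑ j, (dd B (s.2 j)) ^ 2 :=
    Real.sq_sqrt (Finset.sum_nonneg fun j _ => sq_nonneg _)
  rw [Fintype.sum_prod_type_right, Fin.sum_univ_succ, Fin.sum_univ_succ]
  have t0 : ∑ v : Fin m → Bool, Real.exp (-(η * gain B τ s v (0 : Fin (k + 2)))) ≤
      2 ^ m * (1 - 7 / 32 * (η * RS B s)) := by
    have h3 := hEXR m (fun j => ww B (s.1 j)) (RS B s) η hη n1 e1 h1
    refine le_trans (le_of_eq ?_) h3
    refine Finset.sum_congr rfl (fun v _ => ?_)
    unfold gain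
    rw [if_pos (by simp)]
  have t1 : ∑ v : Fin m → Bool, Real.exp (-(η * gain B τ s v ((0 : Fin (k + 1)).succ))) ≤
      2 ^ m * (1 - 7 / 32 * (η * RT B s)) := by
    have h3 := hEXR m (fun j => dd B (s.2 j)) (RT B s) η hη n2 e2 h2
    refine le_trans (le_of_eq ?_) h3
    refine Finset.sum_congr rfl (fun v _ => ?_)
    unfold gain
    rw [if_neg (by simp), if_pos (by simp)]
  have t2 : ∀ i : Fin k, ∑ v : Fin m → Bool, Real.exp (-(η * gain B τ s v (i.succ.succ))) ≤
      2 ^ m - η * (∑ v ∈ bigs τ m, ((sg (cs v) : ℤ) : ℝ) * lin (fun j => ww B (s.1 j)) v) +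
        2 * (η * RS B s) ^ 2 * 2 ^ m := by
    intro i
    have h3 := hEXM m τ (fun j => ww B (s.1 j)) (RS B s) η hη n1 e1 (by linarith)
    have h4 : ∑ v : Fin m → Bool, Real.exp (-(η * gain B τ s v (i.succ.succ))) =
        ∑ v : Fin m → Bool, (if Big τ v then
          Real.exp (-(η * (((sg (cs v) : ℤ) : ℝ) * lin (fun j => ww B (s.1 j)) v))) else 1) := by
      refine Finset.sum_congr rfl (fun v _ => ?_)
      unfold gain
      rw [if_neg (by simp), if_neg (by simp)]
      by_cases hb : Big τ v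
      · rw [if_pos hb, if_pos hb]
      · rw [if_neg hb, if_neg hb, mul_zero, neg_zero, Real.exp_zero]
    have h5 : ((bigs τ m).card : ℝ) + ((univ.filter (fun v : Fin m → Bool => ¬ Big τ v)).card : ℝ)
        = 2 ^ m := by
      have h6 := Finset.card_filter_add_card_filter_not (s := (univ : Finset (Fin m → Bool)))
        (fun v => Big τ v)
      have h7 : (univ : Finset (Fin m → Bool)).card = 2 ^ m := by simp
      rw [h7] at h6
      have h8 : (bigs τ m).card + (univ.filter (fun v : Fin m → Bool => ¬ Big τ v)).card = 2 ^ m := by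
        unfold bigs
        exact h6
      exact_mod_cast h8
    rw [h4, Finset.sum_ite, Finset.sum_const, nsmul_eq_mul, mul_one]
    have h9 : ∑ v ∈ univ.filter (fun v : Fin m → Bool => Big τ v),
        Real.exp (-(η * (((sg (cs v) : ℤ) : ℝ) * lin (fun j => ww B (s.1 j)) v))) =
        ∑ v ∈ bigs τ m,
        Real.exp (-(η * (((sg (cs v) : ℤ) : ℝ) * lin (fun j => ww B (s.1 j)) v))) := rfl
    rw [h9]
    linarith
  have t3 : ∑ i : Fin k, ∑ v : Fin m → Bool, Real.exp (-(η * gain B τ s v (i.succ.succ))) ≤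
      k * (2 ^ m - η * (∑ v ∈ bigs τ m, ((sg (cs v) : ℤ) : ℝ) * lin (fun j => ww B (s.1 j)) v) +
        2 * (η * RS B s) ^ 2 * 2 ^ m) := by
    refine (Finset.sum_le_sum (fun i _ => t2 i)).trans (le_of_eq ?_)
    rw [Finset.sum_const, Finset.card_univ, Fintype.card_fin, nsmul_eq_mul]
  linarith

/-- the final inequality between real numbers -/
lemma final {K k : ℕ} (hKk : K = k + 2) (hK : 4 ≤ K) (M N η S T W γ G Sb MB P : ℝ) (hM : 1 ≤ M)
    (hN : 0 < N) (hη : 0 ≤ η) (hS : 0 ≤ S) (hT : 0 ≤ T) (hW : 0 ≤ W) (hSb : Sb * M = W * MB)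
    (hMB : γ * M * N ≤ (1 - 2 / K) * MB) (hηS : η * S ≤ 1 / (100 * K ^ 2))
    (hG : G ≤ 210 / (24000 * K) * (S + T) + 151552 / (24000 * K) ^ 2)
    (hST : 128 / (24000 * (K : ℝ)) ≤ S + T) :
    Real.exp (η * (P + γ * W + G)) * (N * (1 - 7 / 32 * (η * S)) + N * (1 - 7 / 32 * (η * T)) +
      k * (N - η * Sb + 2 * (η * S) ^ 2 * N)) ≤ K * N * Real.exp (η * P) := by
  have hK0 : (4 : ℝ) ≤ K := by exact_mod_cast hK
  have hk : (k : ℝ) = K - 2 := by rw [hKk]; push_cast; ring
  have hk0 : (0 : ℝ) ≤ k := Nat.cast_nonneg _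
  -- the drift
  have h1 : K * γ * N * W ≤ k * Sb := by
    have h2 : K * (γ * M * N) ≤ (K - 2) * MB := by
      have h3 := mul_le_mul_of_nonneg_left hMB (by linarith : (0 : ℝ) ≤ K)
      have h4 : (K : ℝ) * ((1 - 2 / K) * MB) = (K - 2) * MB := by field_simp
      linarith
    have h5 : K * γ * N * W * M ≤ k * Sb * M := by
      have h6 := mul_le_mul_of_nonneg_right h2 hW
      have h7 : k * Sb * M = (K - 2) * MB * W := by
        rw [mul_assoc, hSb, hk]; ring
      rw [h7]
      linarith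
    exact le_of_mul_le_mul_right h5 (by linarith)
  set X : ℝ := 7 / (32 * K) * (S + T) + γ * W - 2 * (η * S) * S with hX
  have h8 : N * (1 - 7 / 32 * (η * S)) + N * (1 - 7 / 32 * (η * T)) +
      k * (N - η * Sb + 2 * (η * S) ^ 2 * N) ≤ K * N * (1 - η * X) := by
    have h9 : K * N * (1 - η * X) = K * N - 7 / 32 * η * N * (S + T) - η * (K * γ * N * W) +
        2 * K * N * (η * S) ^ 2 := by
      rw [hX]; field_simp; ring
    rw [h9]
    have h10 := mul_le_mul_of_nonneg_left h1 hη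
    have h11 : k * (2 * (η * S) ^ 2 * N) ≤ K * (2 * (η * S) ^ 2 * N) :=
      mul_le_mul_of_nonneg_right (by linarith) (by positivity)
    have h12 : k * (N - η * Sb + 2 * (η * S) ^ 2 * N) = (K - 2) * N - η * (k * Sb) +
        k * (2 * (η * S) ^ 2 * N) := by
      rw [← hk]; ring
    rw [h12]
    nlinarith
  have h13 : 1 - η * X ≤ Real.exp (-(η * X)) := by
    have := Real.add_one_le_exp (-(η * X))
    linarith
  have h14 : γ * W + G ≤ X := by
    have h15 : 151552 / (24000 * (K : ℝ)) ^ 2 ≤ 1184 / (24000 * K) * (S + T) := by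
      have h16 := mul_le_mul_of_nonneg_left hST
        (show (0 : ℝ) ≤ 1184 / (24000 * K) by positivity)
      have h17 : 1184 / (24000 * (K : ℝ)) * (128 / (24000 * K)) = 151552 / (24000 * K) ^ 2 := by
        rw [div_mul_div_comm, sq]
        norm_num
      linarith
    have h18 : 2 * (η * S) * S ≤ 1 / (16 * K) * (S + T) := by
      have h19 : 2 * (η * S) ≤ 1 / (16 * K) := by
        have h20 : 1 / (100 * (K : ℝ) ^ 2) ≤ 1 / (32 * K) := by
          apply one_div_le_one_div_of_le (by positivity)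
          nlinarith
        have h21 : 2 * (1 / (32 * (K : ℝ))) = 1 / (16 * K) := by
          field_simp; norm_num
        linarith
      calc 2 * (η * S) * S ≤ 1 / (16 * K) * S := mul_le_mul_of_nonneg_right h19 hS
        _ ≤ 1 / (16 * K) * (S + T) :=
            mul_le_mul_of_nonneg_left (by linarith) (by positivity)
    have h22 : 210 / (24000 * (K : ℝ)) * (S + T) + 1184 / (24000 * K) * (S + T) ≤
        1 / (16 * K) * (S + T) := by
      rw [← add_mul]
      apply mul_le_mul_of_nonneg_right _ (by linarith)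
      have e : 210 / (24000 * (K : ℝ)) + 1184 / (24000 * K) = (1394 / 24000) * (1 / K) := by
        field_simp; norm_num
      have e' : 1 / (16 * (K : ℝ)) = (1 / 16) * (1 / K) := by field_simp
      rw [e, e']
      apply mul_le_mul_of_nonneg_right (by norm_num) (by positivity)
    have h23 : 1 / (16 * (K : ℝ)) * (S + T) + 1 / (16 * K) * (S + T) ≤ 7 / (32 * K) * (S + T) := by
      rw [← add_mul]
      apply mul_le_mul_of_nonneg_right _ (by linarith)
      have e : 1 / (16 * (K : ℝ)) + 1 / (16 * K) = (1 / 8) * (1 / K) := by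
        field_simp; norm_num
      have e' : 7 / (32 * (K : ℝ)) = (7 / 32) * (1 / K) := by field_simp
      rw [e, e']
      apply mul_le_mul_of_nonneg_right (by norm_num) (by positivity)
    rw [hX]
    linarith
  calc Real.exp (η * (P + γ * W + G)) * (N * (1 - 7 / 32 * (η * S)) + N * (1 - 7 / 32 * (η * T)) +
      k * (N - η * Sb + 2 * (η * S) ^ 2 * N))
      ≤ Real.exp (η * (P + γ * W + G)) * (K * N * Real.exp (-(η * X))) := by
        apply mul_le_mul_of_nonneg_left _ (Real.exp_pos _).le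
        refine h8.trans ?_
        apply mul_le_mul_of_nonneg_left h13
        positivity
    _ = K * N * Real.exp (η * (P + γ * W + G) + -(η * X)) := by
        rw [Real.exp_add]; ring
    _ ≤ K * N * Real.exp (η * P) := by
        apply mul_le_mul_of_nonneg_left _ (by positivity)
        apply Real.exp_le_exp.2
        have := mul_le_mul_of_nonneg_left h14 hη
        linarith

/-- Row ONE2. -/
theorem one2 (hFS : T_FS) (hFSS : T_FSS) (hABS : T_ABS) (hEXR : T_EXR) (hEXM : T_EXM)
    (hSYM : T_SYM) : T_ONE2 := by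
  intro m K B γ τ hm hK hB hγ0 hγ1 hMB
  have hm0 : (1 : ℝ) ≤ m := by exact_mod_cast hm
  have hK0 : (4 : ℝ) ≤ K := by exact_mod_cast hK
  have hs0 : 0 < Real.sqrt m := Real.sqrt_pos.2 (by linarith)
  have hB0 : 0 < B := by rw [hB]; positivity
  have hW0 : ∀ s : St m, (∀ j, 0 < s.1 j) → 0 ≤ ∑ j, ww B (s.1 j) := fun s ha =>
    Finset.sum_nonneg fun j _ => by
      have := ha j
      unfold ww
      positivity
  refine ⟨?_, ?_⟩
  · intro s c hs
    obtain ⟨hP, ha, ht, hq, hh', hG, -, hR1, hR2, hA1, hA2⟩ :=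
      facts hABS B hm hK hB s (by linarith)
    have h1 := step_gain hFS hFSS B (128 * m) γ τ hB0 hγ0 hγ1 s c ha ht hq hh'
    have n1 : 0 ≤ RS B s := Real.sqrt_nonneg _
    have n2 : 0 ≤ RT B s := Real.sqrt_nonneg _
    have h2 := (eta_R hm hK _ n1 hR1).2
    have h3 := (eta_R hm hK _ n2 hR2).2
    have hKi : 1 / (K : ℝ) ≤ 1 / 4 := one_div_le_one_div_of_le (by norm_num) hK0
    have hKi0 : 0 ≤ 1 / (K : ℝ) := by positivity
    have hKi2 : (1 / (K : ℝ)) ^ 2 ≤ (1 / 4) ^ 2 := pow_le_pow_left₀ hKi0 hKi 2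
    have h4 : 4096 / (24000 * (K : ℝ)) * m ≤ m := by
      have e : 4096 / (24000 * (K : ℝ)) * m = 4096 / 24000 * (1 / K * m) := by field_simp
      have h5 : 1 / (K : ℝ) * m ≤ 1 / 4 * m := mul_le_mul_of_nonneg_right hKi (by linarith)
      rw [e]
      linarith
    have h6 : GG B s ≤ m := by
      have h7 : 210 / (24000 * (K : ℝ)) * (RS B s + RT B s) ≤ 1 / 4 * m := by
        have h8 : RS B s + RT B s ≤ 6930 / (24000 * K) * m := by
          have e : 6930 / (24000 * (K : ℝ)) * m =
            3465 / (24000 * K) * m + 3465 / (24000 * K) * m := by ring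
          rw [e]
          linarith
        have h9 := mul_le_mul_of_nonneg_left h8
          (show (0 : ℝ) ≤ 210 / (24000 * K) by positivity)
        have e : 210 / (24000 * (K : ℝ)) * (6930 / (24000 * K) * m) =
            (210 * 6930 / 24000 ^ 2) * ((1 / K) ^ 2 * m) := by
          field_simp
        have h10 : (1 / (K : ℝ)) ^ 2 * m ≤ (1 / 4) ^ 2 * m :=
          mul_le_mul_of_nonneg_right hKi2 (by linarith)
        rw [e] at h9
        linarith
      have h11 : 151552 / (24000 * (K : ℝ)) ^ 2 ≤ 1 / 4 * m := by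
        have e : 151552 / (24000 * (K : ℝ)) ^ 2 = 151552 / 24000 ^ 2 * (1 / K) ^ 2 := by
          field_simp
        rw [e]
        linarith
      linarith
    have h12 : -(4096 / (24000 * (K : ℝ)) * m) ≤ gain B τ s c.1 c.2 := by
      have h13 : 0 ≤ 4096 / (24000 * (K : ℝ)) * m := by positivity
      unfold gain
      split_ifs
      · have := abs_nonneg (lin (fun j => ww B (s.1 j)) c.1)
        linarith
      · have := abs_nonneg (lin (fun j => dd B (s.2 j)) c.1)
        linarith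
      · have h14 : |((sg (cs c.1) : ℤ) : ℝ) * lin (fun j => ww B (s.1 j)) c.1| ≤
            4096 / (24000 * K) * m := by
          rw [abs_mul, sg_abs, one_mul]
          exact (abs_lin_le _ _).trans hA1
        have := neg_abs_le (((sg (cs c.1) : ℤ) : ℝ) * lin (fun j => ww B (s.1 j)) c.1)
        linarith
      · linarith
    have h15 : γ * (∑ j, ww B (s.1 j)) ≤ 4096 / (24000 * K) * m := by
      have h16 : ∑ j, ww B (s.1 j) ≤ ∑ j, |ww B (s.1 j)| :=
        Finset.sum_le_sum fun j _ => le_abs_self _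
      have h17 := mul_le_mul_of_nonneg_right hγ1 (hW0 s ha)
      linarith
    rw [hP] at hs
    linarith
  · intro s hs1 hs2
    obtain ⟨hP, ha, ht, hq, hh', hG, hST, hR1, hR2, hA1, hA2⟩ := facts hABS B hm hK hB s hs2
    have n1 : 0 ≤ RS B s := Real.sqrt_nonneg _
    have n2 : 0 ≤ RT B s := Real.sqrt_nonneg _
    set η : ℝ := 1 / (16 * K * Real.sqrt (Real.sqrt m) ^ 3) with hη
    have hη0 : 0 ≤ η := by rw [hη]; positivity
    have h1 : η * RS B s ≤ 1 / (100 * K ^ 2) := (eta_R hm hK _ n1 hR1).1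
    have h2 : η * RT B s ≤ 1 / (100 * K ^ 2) := (eta_R hm hK _ n2 hR2).1
    have h3 : 1 / (100 * (K : ℝ) ^ 2) ≤ 1 / 2 := by
      apply one_div_le_one_div_of_le (by norm_num)
      nlinarith
    obtain ⟨k, hk⟩ : ∃ k, K = k + 2 := ⟨K - 2, by omega⟩
    have h4 : ∀ c : (Fin m → Bool) × Fin K,
        Real.exp (η * pot2 B (128 * m) (stp2 B γ τ s c)) ≤
        Real.exp (η * (P4 B s + γ * (∑ j, ww B (s.1 j)) + GG B s)) *
          Real.exp (-(η * gain B τ s c.1 c.2)) := by
      intro c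
      rw [← Real.exp_add]
      apply Real.exp_le_exp.2
      have h5 := step_gain hFS hFSS B (128 * m) γ τ hB0 hγ0 hγ1 s c ha ht hq hh'
      have h6 := mul_le_mul_of_nonneg_left h5 hη0
      linarith
    refine (Finset.sum_le_sum (fun c _ => h4 c)).trans ?_
    rw [← Finset.mul_sum]
    have h7 : ∑ c : (Fin m → Bool) × Fin K, Real.exp (-(η * gain B τ s c.1 c.2)) ≤
      2 ^ m * (1 - 7 / 32 * (η * RS B s)) + 2 ^ m * (1 - 7 / 32 * (η * RT B s)) +
      k * (2 ^ m - η * (∑ v ∈ bigs τ m, ((sg (cs v) : ℤ) : ℝ) * lin (fun j => ww B (s.1 j)) v) +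
        2 * (η * RS B s) ^ 2 * 2 ^ m) := by
      clear_value η
      subst hk
      exact sum_gain hEXR hEXM B τ s η hη0 (by linarith) (by linarith)
    refine (mul_le_mul_of_nonneg_left h7 (Real.exp_pos _).le).trans ?_
    have h8 := hSYM m τ (fun j => ww B (s.1 j))
    have h9 := final hk hK (m : ℝ) (2 ^ m) η (RS B s) (RT B s) (∑ j, ww B (s.1 j)) γ (GG B s)
      (∑ v ∈ bigs τ m, ((sg (cs v) : ℤ) : ℝ) * lin (fun j => ww B (s.1 j)) v) (MB τ m) (P4 B s)
      hm0 (by positivity) hη0 n1 n2 (hW0 s ha) h8 hMB h1 hG (hST (by rw [← hP]; exact hs1))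
    refine h9.trans (le_of_eq ?_)
    rw [hP]
    congr 1
    simp only [Fintype.card_prod, Fintype.card_fun, Fintype.card_bool, Fintype.card_fin]
    push_cast
    ring

end Pool.Agent.H52.JE
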