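import Pool.Agent.H80.JE.Targets

/-!
# JE board, module ONE2: one step of the walk (helper52, MP_38f78d_pr)

With `L = 24000 K`, `B = L √m`, `η = 1 / (16 K m^(3/4))` the exponential of `η` times the potential
does not grow in the mean as long as the potential lies between `64 m` and `128 m`.
-/

set_option autoImplicit false

namespace Pool.Agent.H52.JE

open Finset Filter Topology Pool.Agent.H80.JD Pool.Agent.H80.JE

/-! ## States with small potential -/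

lemma gg_nonneg (B A a : ℝ) (hA : 0 ≤ A) : 0 ≤ gg B A a := by
  unfold gg
  split_ifs
  · positivity
  · linarith

lemma ff_nonneg (B A : ℝ) (hA : 0 ≤ A) (s : ℤ) : 0 ≤ ff B A s := by
  unfold ff
  split_ifs
  · positivity
  · linarith

lemma good_of_pot2 {m : ℕ} (B A : ℝ) (hA : 0 ≤ A) (s : St m) (h : pot2 B A s ≤ A) :
    (∀ j, 0 < s.1 j) ∧ ∀ j, |((s.2 j : ℤ) : ℝ)| < B := by
  have h1 : 0 ≤ ∑ j, gg B A (s.1 j) := Finset.sum_nonneg fun j _ => gg_nonneg B A _ hA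
  have h2 : 0 ≤ pot B A s.2 := Finset.sum_nonneg fun j _ => ff_nonneg B A hA _
  unfold pot2 at h
  constructor
  · intro j
    by_contra hc
    have h3 : gg B A (s.1 j) = A + 1 := by unfold gg; rw [if_neg hc]
    have h4 : gg B A (s.1 j) ≤ ∑ j, gg B A (s.1 j) :=
      Finset.single_le_sum (f := fun j => gg B A (s.1 j)) (fun i _ => gg_nonneg B A _ hA)
        (mem_univ j)
    linarith
  · intro j
    by_contra hc
    have h3 : ff B A (s.2 j) = A + 1 := by unfold ff; rw [if_neg hc]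
    have h4 : ff B A (s.2 j) ≤ pot B A s.2 :=
      Finset.single_le_sum (f := fun j => ff B A (s.2 j)) (fun i _ => ff_nonneg B A hA _)
        (mem_univ j)
    linarith

lemma pot2_eq {m : ℕ} (B A : ℝ) (a : Fin m → ℝ) (t : Fin m → ℤ) (h1 : ∀ j, 0 < a j)
    (h2 : ∀ j, |((t j : ℤ) : ℝ)| < B) :
    pot2 B A ((a, t) : St m) = (∑ j, (B / a j) ^ 4) + ∑ j, (hh B (t j)) ^ 4 := by
  unfold pot2 pot
  congr 1
  · refine Finset.sum_congr rfl (fun j _ => ?_)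
    unfold gg
    rw [if_pos (h1 j)]
  · refine Finset.sum_congr rfl (fun j _ => ?_)
    unfold ff
    rw [if_pos (h2 j)]

lemma sg_abs (b : Bool) : |((sg b : ℤ) : ℝ)| = 1 := by
  rcases sg_cases b with h | h <;> rw [h] <;> norm_num

lemma abs_lin_le {m : ℕ} (D : Fin m → ℝ) (v : Fin m → Bool) : |lin D v| ≤ ∑ j, |D j| := by
  unfold lin
  refine (Finset.abs_sum_le_sum_abs _ _).trans (Finset.sum_le_sum fun j _ => ?_)
  rw [abs_mul, sg_abs, mul_one]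

/-! ## One step -/

/-- a step of the distances of the core sums -/
lemma core_step (hFSS : T_FSS) {m : ℕ} (B γ : ℝ) (hB : 0 < B) (a : Fin m → ℝ) (ε : ℝ)
    (v : Fin m → Bool) (hx : ∀ j, |ε * ((sg (v j) : ℤ) : ℝ) - γ| ≤ 2) (ha : ∀ j, 0 < a j)
    (hq : ∀ j, B / a j ≤ B / 24) :
    (∀ j, 0 < a j + (ε * ((sg (v j) : ℤ) : ℝ) - γ)) ∧
    ∑ j, (B / (a j + (ε * ((sg (v j) : ℤ) : ℝ) - γ))) ^ 4 ≤
      (∑ j, (B / a j) ^ 4) - ε * lin (fun j => ww B (a j)) v + γ * ∑ j, ww B (a j) +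
        148 / B ^ 2 * ∑ j, (B / a j) ^ 6 := by
  refine ⟨fun j => (hFSS B (a j) _ hB (ha j) (hq j) (hx j)).1, ?_⟩
  have h1 : ∑ j, (B / (a j + (ε * ((sg (v j) : ℤ) : ℝ) - γ))) ^ 4 ≤
      ∑ j, ((B / a j) ^ 4 - ε * (ww B (a j) * ((sg (v j) : ℤ) : ℝ)) + γ * ww B (a j) +
        148 / B ^ 2 * (B / a j) ^ 6) := by
    refine Finset.sum_le_sum (fun j _ => ?_)
    have h2 := (hFSS B (a j) _ hB (ha j) (hq j) (hx j)).2
    have h3 : 64 / B ^ 2 * (B / a j) ^ 6 ≤ 148 / B ^ 2 * (B / a j) ^ 6 := by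
      have h4 : (0 : ℝ) ≤ (B / a j) ^ 6 := by positivity
      have h5 : 64 / B ^ 2 ≤ 148 / B ^ 2 := by
        apply div_le_div_of_nonneg_right _ (by positivity)
        norm_num
      exact mul_le_mul_of_nonneg_right h5 h4
    linarith
  rw [Finset.sum_add_distrib, Finset.sum_add_distrib, Finset.sum_sub_distrib, ← Finset.mul_sum,
    ← Finset.mul_sum, ← Finset.mul_sum] at h1
  exact h1

/-- a step of the free sums -/
lemma free_step (hFS : T_FS) {m : ℕ} (B : ℝ) (t : Fin m → ℤ) (b : Bool) (v : Fin m → Bool)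
    (h : ∀ j, |((t j : ℤ) : ℝ)| < B) (h' : ∀ j, hh B (t j) ≤ B / 24) :
    (∀ j, |((t j + sg b * sg (v j) : ℤ) : ℝ)| < B) ∧
    ∑ j, (hh B (t j + sg b * sg (v j))) ^ 4 ≤
      (∑ j, (hh B (t j)) ^ 4) + ((sg b : ℤ) : ℝ) * lin (fun j => dd B (t j)) v +
        148 / B ^ 2 * ∑ j, (hh B (t j)) ^ 6 := by
  have hx : ∀ j, sg b * sg (v j) = 1 ∨ sg b * sg (v j) = -1 := by
    intro j
    rw [← sg_xor]
    exact sg_cases _
  refine ⟨fun j => (hFS B (t j) _ (h j) (h' j) (hx j)).1, ?_⟩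
  have h1 : ∑ j, (hh B (t j + sg b * sg (v j))) ^ 4 ≤ ∑ j, ((hh B (t j)) ^ 4
      + ((sg b : ℤ) : ℝ) * (dd B (t j) * ((sg (v j) : ℤ) : ℝ))
      + 148 / B ^ 2 * (hh B (t j)) ^ 6) := by
    refine Finset.sum_le_sum (fun j _ => ?_)
    have h2 := (hFS B (t j) _ (h j) (h' j) (hx j)).2
    push_cast at h2
    have h3 : ((sg b : ℤ) : ℝ) * (dd B (t j) * ((sg (v j) : ℤ) : ℝ))
        = ((sg b : ℤ) : ℝ) * ((sg (v j) : ℤ) : ℝ) * dd B (t j) := by ring
    rw [h3]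
    exact h2
  rw [Finset.sum_add_distrib, Finset.sum_add_distrib, ← Finset.mul_sum, ← Finset.mul_sum] at h1
  exact h1

/-- the sum of the fourth powers -/
noncomputable def P4 (B : ℝ) {m : ℕ} (s : St m) : ℝ :=
  (∑ j, (B / s.1 j) ^ 4) + ∑ j, (hh B (s.2 j)) ^ 4

/-- the second order term -/
noncomputable def GG (B : ℝ) {m : ℕ} (s : St m) : ℝ :=
  148 / B ^ 2 * ((∑ j, (B / s.1 j) ^ 6) + ∑ j, (hh B (s.2 j)) ^ 6)

lemma step_core (hFSS : T_FSS) {m K : ℕ} (B A γ τ : ℝ) (hB : 0 < B) (hγ0 : 0 ≤ γ) (hγ1 : γ ≤ 1)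
    (s : St m) (c : (Fin m → Bool) × Fin K) (ha : ∀ j, 0 < s.1 j)
    (ht : ∀ j, |((s.2 j : ℤ) : ℝ)| < B) (hq : ∀ j, B / s.1 j ≤ B / 24)
    (hc : Core τ c.1 c.2) :
    pot2 B A (stp2 B γ τ s c) ≤ P4 B s
      - ((sg (bit B τ s c.1 c.2) : ℤ) : ℝ) * lin (fun j => ww B (s.1 j)) c.1
      + γ * (∑ j, ww B (s.1 j)) + GG B s := by
  unfold stp2
  rw [if_pos hc]
  have hx : ∀ j, |((sg (bit B τ s c.1 c.2) : ℤ) : ℝ) * ((sg (c.1 j) : ℤ) : ℝ) - γ| ≤ 2 := by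
    intro j
    have h1 : |((sg (bit B τ s c.1 c.2) : ℤ) : ℝ) * ((sg (c.1 j) : ℤ) : ℝ)| = 1 := by
      rw [abs_mul, sg_abs, sg_abs, one_mul]
    have h2 := abs_sub (((sg (bit B τ s c.1 c.2) : ℤ) : ℝ) * ((sg (c.1 j) : ℤ) : ℝ)) γ
    rw [h1, abs_of_nonneg hγ0] at h2
    linarith
  obtain ⟨h1, h2⟩ := core_step hFSS B γ hB s.1 ((sg (bit B τ s c.1 c.2) : ℤ) : ℝ) c.1 hx ha hq
  have e1 : (fun j => s.1 j + ((sg (bit B τ s c.1 c.2) * sg (c.1 j) : ℤ) : ℝ) - γ) =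
      fun j => s.1 j + (((sg (bit B τ s c.1 c.2) : ℤ) : ℝ) * ((sg (c.1 j) : ℤ) : ℝ) - γ) := by
    funext j
    push_cast
    ring
  rw [e1, pot2_eq B A _ _ h1 ht]
  have h6 : 0 ≤ 148 / B ^ 2 * ∑ j, (hh B (s.2 j)) ^ 6 := by positivity
  unfold P4 GG
  rw [mul_add]
  linarith

lemma step_free (hFS : T_FS) (hFSS : T_FSS) {m K : ℕ} (B A γ τ : ℝ) (hB : 0 < B) (hγ0 : 0 ≤ γ)
    (hγ1 : γ ≤ 1) (s : St m) (c : (Fin m → Bool) × Fin K) (ha : ∀ j, 0 < s.1 j)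
    (ht : ∀ j, |((s.2 j : ℤ) : ℝ)| < B) (hq : ∀ j, B / s.1 j ≤ B / 24)
    (hh' : ∀ j, hh B (s.2 j) ≤ B / 24) (hc : ¬ Core τ c.1 c.2) :
    pot2 B A (stp2 B γ τ s c) ≤ P4 B s
      + ((sg (bit B τ s c.1 c.2) : ℤ) : ℝ) * lin (fun j => dd B (s.2 j)) c.1
      + γ * (∑ j, ww B (s.1 j)) + GG B s := by
  unfold stp2
  rw [if_neg hc]
  have hx : ∀ j, |0 * ((sg (c.1 j) : ℤ) : ℝ) - γ| ≤ 2 := by
    intro j
    rw [zero_mul, zero_sub, abs_neg, abs_of_nonneg hγ0]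
    linarith
  obtain ⟨h1, h2⟩ := core_step hFSS B γ hB s.1 0 c.1 hx ha hq
  obtain ⟨h3, h4⟩ := free_step hFS B s.2 (bit B τ s c.1 c.2) c.1 ht hh'
  have e1 : (fun j => s.1 j - γ) =
      fun j => s.1 j + (0 * ((sg (c.1 j) : ℤ) : ℝ) - γ) := by
    funext j
    ring
  rw [e1, pot2_eq B A _ _ h1 h3]
  unfold P4 GG
  rw [mul_add]
  linarith

open Classical in
/-- the first order term -/
noncomputable def gain (B τ : ℝ) {m K : ℕ} (s : St m) (v : Fin m → Bool) (u : Fin K) : ℝ :=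
  if (u : ℕ) = 0 then |lin (fun j => ww B (s.1 j)) v|
  else if (u : ℕ) = 1 then |lin (fun j => dd B (s.2 j)) v|
  else if Big τ v then ((sg (cs v) : ℤ) : ℝ) * lin (fun j => ww B (s.1 j)) v
  else 0

lemma step_gain (hFS : T_FS) (hFSS : T_FSS) {m K : ℕ} (B A γ τ : ℝ) (hB : 0 < B) (hγ0 : 0 ≤ γ)
    (hγ1 : γ ≤ 1) (s : St m) (c : (Fin m → Bool) × Fin K) (ha : ∀ j, 0 < s.1 j)
    (ht : ∀ j, |((s.2 j : ℤ) : ℝ)| < B) (hq : ∀ j, B / s.1 j ≤ B / 24)
    (hh' : ∀ j, hh B (s.2 j) ≤ B / 24) :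
    pot2 B A (stp2 B γ τ s c) ≤ P4 B s + γ * (∑ j, ww B (s.1 j)) + GG B s
      - gain B τ s c.1 c.2 := by
  have hfree : ¬ Core τ c.1 c.2 → bit B τ s c.1 c.2 = choice B s.2 c.1 →
      pot2 B A (stp2 B γ τ s c) ≤ P4 B s + γ * (∑ j, ww B (s.1 j)) + GG B s
        - |lin (fun j => dd B (s.2 j)) c.1| := by
    intro h1 h2
    have h3 := step_free hFS hFSS B A γ τ hB hγ0 hγ1 s c ha ht hq hh' h1
    have h4 : ((sg (choice B s.2 c.1) : ℤ) : ℝ) * lin (fun j => dd B (s.2 j)) c.1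
        = -|lin (fun j => dd B (s.2 j)) c.1| := by
      unfold choice
      split_ifs with h
      · rw [sg_true, abs_of_pos h]; push_cast; ring
      · rw [sg_false, abs_of_nonpos (not_lt.1 h)]; push_cast; ring
    rw [h2, h4] at h3
    linarith
  unfold gain
  by_cases hu0 : (c.2 : ℕ) = 0
  · rw [if_pos hu0]
    have h3 := step_core hFSS B A γ τ hB hγ0 hγ1 s c ha ht hq (Or.inl hu0)
    have h4 : ((sg (bit B τ s c.1 c.2) : ℤ) : ℝ) * lin (fun j => ww B (s.1 j)) c.1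
        = |lin (fun j => ww B (s.1 j)) c.1| := by
      unfold bit
      rw [if_pos hu0]
      by_cases h : lin (fun j => ww B (s.1 j)) c.1 < 0
      · rw [decide_eq_true h, sg_true, abs_of_neg h]; push_cast; ring
      · rw [decide_eq_false h, sg_false, abs_of_nonneg (not_lt.1 h)]; push_cast; ring
    rw [h4] at h3
    linarith
  · rw [if_neg hu0]
    by_cases hu1 : (c.2 : ℕ) = 1
    · rw [if_pos hu1]
      refine hfree ?_ ?_
      · rintro (h | ⟨h, -⟩)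
        · exact hu0 h
        · omega
      · unfold bit
        rw [if_neg hu0, if_neg]
        rintro ⟨h, -⟩
        omega
    · rw [if_neg hu1]
      have hu2 : 2 ≤ (c.2 : ℕ) := by omega
      by_cases hb : Big τ c.1
      · rw [if_pos hb]
        have h3 := step_core hFSS B A γ τ hB hγ0 hγ1 s c ha ht hq (Or.inr ⟨hu2, hb⟩)
        have h4 : bit B τ s c.1 c.2 = cs c.1 := by
          unfold bit
          rw [if_neg hu0, if_pos ⟨hu2, hb⟩]
        rw [h4] at h3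
        linarith
      · rw [if_neg hb]
        have h3 := hfree (by
          rintro (h | ⟨-, h⟩)
          · exact hu0 h
          · exact hb h) (by
          unfold bit
          rw [if_neg hu0, if_neg]
          rintro ⟨-, h⟩
          exact hb h)
        have h4 := abs_nonneg (lin (fun j => dd B (s.2 j)) c.1)
        linarith

end Pool.Agent.H52.JE
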