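import Pool.Agent.H52.JE.ONE2A

/-!
# JE board, module ONE2, second part: the bounds for one state (helper52, MP_38f78d_pr)
-/

set_option autoImplicit false

namespace Pool.Agent.H52.JE

open Finset Filter Topology Pool.Agent.H80.JD Pool.Agent.H80.JE

/-- the size of the linear term of the core sums -/
noncomputable def RS (B : ℝ) {m : ℕ} (s : St m) : ℝ := Real.sqrt (∑ j, (ww B (s.1 j)) ^ 2)

/-- the size of the linear term of the free sums -/
noncomputable def RT (B : ℝ) {m : ℕ} (s : St m) : ℝ := Real.sqrt (∑ j, (dd B (s.2 j)) ^ 2)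

lemma hh_facts (B : ℝ) (hB : 0 < B) (t : ℤ) (ht : |((t : ℤ) : ℝ)| < B) :
    0 ≤ hh B t ∧ |dd B t| ≤ 8 / B * (hh B t) ^ 5 ∧
      (2 ≤ hh B t → 16 / B ^ 2 * (hh B t) ^ 10 ≤ (dd B t) ^ 2) := by
  set x : ℝ := (t : ℝ) / B with hx
  have hx1 : |x| < 1 := by
    rw [hx, abs_div, abs_of_pos hB, div_lt_one hB]
    exact ht
  have hx2 : x ^ 2 < 1 := by
    rw [← sq_abs]
    have := abs_nonneg x
    nlinarith
  have hh1 : hh B t = 1 / (1 - x ^ 2) := rfl
  have hh0 : 0 ≤ hh B t := by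
    rw [hh1]
    apply div_nonneg zero_le_one
    linarith
  have hd : dd B t = 8 * x / B * (hh B t) ^ 5 := rfl
  refine ⟨hh0, ?_, ?_⟩
  · rw [hd, abs_mul, abs_of_nonneg (pow_nonneg hh0 5)]
    apply mul_le_mul_of_nonneg_right _ (pow_nonneg hh0 5)
    rw [abs_div, abs_mul, abs_of_pos hB, abs_of_pos (by norm_num : (0 : ℝ) < 8)]
    apply div_le_div_of_nonneg_right _ hB.le
    linarith
  · intro h2
    have h3 : (1 : ℝ) / 2 ≤ x ^ 2 := by
      rw [hh1, le_div_iff₀ (by linarith)] at h2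
      linarith
    have h4 : (dd B t) ^ 2 = 64 * x ^ 2 / B ^ 2 * (hh B t) ^ 10 := by
      rw [hd]
      ring
    rw [h4]
    apply mul_le_mul_of_nonneg_right _ (pow_nonneg hh0 10)
    apply div_le_div_of_nonneg_right _ (by positivity)
    linarith

/-- the bounds for a state with small potential -/
lemma facts (hABS : T_ABS) {m K : ℕ} (B : ℝ) (hm : 1 ≤ m) (hK : 4 ≤ K)
    (hB : B = 24000 * K * Real.sqrt m) (s : St m) (h : pot2 B (128 * m) s ≤ 128 * m) :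
    pot2 B (128 * m) s = P4 B s ∧ (∀ j, 0 < s.1 j) ∧ (∀ j, |((s.2 j : ℤ) : ℝ)| < B) ∧
    (∀ j, B / s.1 j ≤ B / 24) ∧ (∀ j, hh B (s.2 j) ≤ B / 24) ∧
    GG B s ≤ 210 / (24000 * K) * (RS B s + RT B s) + 151552 / (24000 * K) ^ 2 ∧
    (64 * m ≤ P4 B s → 128 / (24000 * (K : ℝ)) ≤ RS B s + RT B s) ∧
    (RS B s) ^ 2 ≤ 12000000 / (24000 * K) ^ 2 * (m * Real.sqrt m) ∧
    (RT B s) ^ 2 ≤ 12000000 / (24000 * K) ^ 2 * (m * Real.sqrt m) ∧
    (∑ j, |ww B (s.1 j)|) ≤ 4096 / (24000 * K) * m ∧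
    (∑ j, |dd B (s.2 j)|) ≤ 4096 / (24000 * K) * m := by
  have hm0 : (1 : ℝ) ≤ m := by exact_mod_cast hm
  have hK0 : (4 : ℝ) ≤ K := by exact_mod_cast hK
  have hs0 : 0 < Real.sqrt m := Real.sqrt_pos.2 (by linarith)
  have hB0 : 0 < B := by rw [hB]; positivity
  obtain ⟨ha, ht⟩ := good_of_pot2 B (128 * m) (by positivity) s h
  have hP : pot2 B (128 * m) s = P4 B s := pot2_eq B (128 * m) s.1 s.2 ha ht
  have hq0 : ∀ j, 0 ≤ B / s.1 j := fun j => div_nonneg hB0.le (ha j).le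
  have hq4 : 0 ≤ ∑ j, (B / s.1 j) ^ 4 := Finset.sum_nonneg fun j _ => pow_nonneg (hq0 j) 4
  have hh4 : 0 ≤ ∑ j, (hh B (s.2 j)) ^ 4 := Finset.sum_nonneg fun j _ => by positivity
  have hP2 := h
  rw [hP] at hP2
  unfold P4 at hP2
  have hw : ∀ j, |ww B (s.1 j)| ≤ 8 / B * (B / s.1 j) ^ 5 := by
    intro j
    have h0 : 0 ≤ (B / s.1 j) ^ 5 := pow_nonneg (hq0 j) 5
    have h1 : 0 ≤ ww B (s.1 j) := by unfold ww; positivity
    rw [abs_of_nonneg h1]
    unfold ww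
    apply mul_le_mul_of_nonneg_right _ h0
    apply div_le_div_of_nonneg_right _ hB0.le
    norm_num
  have hw2 : ∀ j, 2 ≤ B / s.1 j → 16 / B ^ 2 * (B / s.1 j) ^ 10 ≤ (ww B (s.1 j)) ^ 2 := by
    intro j _
    apply le_of_eq
    unfold ww
    ring
  obtain ⟨a1, a2, a3, a4, a5⟩ := hABS m (24000 * K) B (fun j => B / s.1 j)
    (fun j => ww B (s.1 j)) hm (by linarith) hB hq0 (by linarith) hw hw2
  obtain ⟨b1, b2, b3, b4, b5⟩ := hABS m (24000 * K) B (fun j => hh B (s.2 j))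
    (fun j => dd B (s.2 j)) hm (by linarith) hB (fun j => (hh_facts B hB0 _ (ht j)).1)
    (by linarith) (fun j => (hh_facts B hB0 _ (ht j)).2.1)
    (fun j => (hh_facts B hB0 _ (ht j)).2.2)
  have e1 : (RS B s) ^ 2 = ∑ j, (ww B (s.1 j)) ^ 2 :=
    Real.sq_sqrt (Finset.sum_nonneg fun j _ => sq_nonneg _)
  have e2 : (RT B s) ^ 2 = ∑ j, (dd B (s.2 j)) ^ 2 :=
    Real.sq_sqrt (Finset.sum_nonneg fun j _ => sq_nonneg _)
  have n1 : 0 ≤ RS B s := Real.sqrt_nonneg _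
  have n2 : 0 ≤ RT B s := Real.sqrt_nonneg _
  refine ⟨hP, ha, ht, a1, b1, ?_, ?_, ?_, ?_, a5, b5⟩
  · unfold GG
    rw [mul_add]
    have h3 : (151552 : ℝ) / (24000 * K) ^ 2 = 75776 / (24000 * K) ^ 2 + 75776 / (24000 * K) ^ 2 := by
      ring
    rw [h3, mul_add]
    have a2' : 148 / B ^ 2 * ∑ j, (B / s.1 j) ^ 6 ≤ 210 / (24000 * K) * RS B s +
        75776 / (24000 * K) ^ 2 := a2
    have b2' : 148 / B ^ 2 * ∑ j, (hh B (s.2 j)) ^ 6 ≤ 210 / (24000 * K) * RT B s +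
        75776 / (24000 * K) ^ 2 := b2
    linarith
  · intro h3
    unfold P4 at h3
    rcases le_total (32 * (m : ℝ)) (∑ j, (B / s.1 j) ^ 4) with h4 | h4
    · have : 128 / (24000 * (K : ℝ)) ≤ RS B s := a3 h4
      linarith
    · have : 128 / (24000 * (K : ℝ)) ≤ RT B s := b3 (by linarith)
      linarith
  · rw [e1]; exact a4
  · rw [e2]; exact b4

/-- `R² ≤ 12000000 / (24000 K)² m^(3/2)` in terms of `η = 1 / (16 K m^(3/4))` -/
lemma eta_R {m K : ℕ} (hm : 1 ≤ m) (hK : 4 ≤ K) (R : ℝ) (hR : 0 ≤ R)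
    (h : R ^ 2 ≤ 12000000 / (24000 * K) ^ 2 * (m * Real.sqrt m)) :
    1 / (16 * K * Real.sqrt (Real.sqrt m) ^ 3) * R ≤ 1 / (100 * K ^ 2) ∧ R ≤ 3465 / (24000 * K) * m := by
  have hm0 : (1 : ℝ) ≤ m := by exact_mod_cast hm
  have hK0 : (4 : ℝ) ≤ K := by exact_mod_cast hK
  set u : ℝ := Real.sqrt m with hu
  have hu2 : u ^ 2 = m := Real.sq_sqrt (by linarith)
  have hu0 : 0 < u := Real.sqrt_pos.2 (by linarith)
  have hu1 : 1 ≤ u := by
    rw [hu, Real.one_le_sqrt]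
    exact hm0
  set q : ℝ := Real.sqrt u with hq
  have hq2 : q ^ 2 = u := Real.sq_sqrt hu0.le
  have hq0 : 0 < q := Real.sqrt_pos.2 hu0
  have hq1 : 1 ≤ q := by
    rw [hq, Real.one_le_sqrt]
    exact hu1
  have h1 : R ≤ 3465 / (24000 * K) * q ^ 3 := by
    apply le_of_sq_le_sq _ (by positivity)
    refine h.trans ?_
    have e : (3465 / (24000 * (K : ℝ)) * q ^ 3) ^ 2 = 3465 ^ 2 / (24000 * K) ^ 2 * (m * u) := by
      rw [← hu2, ← hq2]; ring
    rw [e]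
    apply mul_le_mul_of_nonneg_right _ (by positivity)
    apply div_le_div_of_nonneg_right _ (by positivity)
    norm_num
  constructor
  · calc 1 / (16 * K * q ^ 3) * R ≤ 1 / (16 * K * q ^ 3) * (3465 / (24000 * K) * q ^ 3) :=
          mul_le_mul_of_nonneg_left h1 (by positivity)
      _ = 3465 / 384000 * (1 / K ^ 2) := by
          field_simp
          norm_num
      _ ≤ 1 / 100 * (1 / K ^ 2) := by
          apply mul_le_mul_of_nonneg_right (by norm_num) (by positivity)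
      _ = 1 / (100 * K ^ 2) := by rw [one_div_mul_one_div]
  · refine h1.trans ?_
    apply mul_le_mul_of_nonneg_left _ (by positivity)
    have e : (m : ℝ) = q ^ 4 := by
      rw [← hu2, ← hq2]; ring
    rw [e]
    exact pow_le_pow_right₀ hq1 (by norm_num)

end Pool.Agent.H52.JE
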